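import Pool.Agent.P.MP_71554c_al.Rank2

open Pool.Agent.P.MP_71554c_al in
theorem Pool.Agent.Results.MP_71554c_al.RankTwo.result :
    ∃ (G : Bool → Type) (_ : ∀ i, Group (G i)) (φ : ∀ i, Multiplicative (ℤ × ℤ) →* G i),
      (∀ i, Function.Injective (φ i)) ∧ (∀ i, (φ i).range.FiniteIndex) ∧
      (∀ i, Pool.Agent.Lib.Amenable.IsAmenable (G i)) ∧ (∀ i, ResiduallyAmenable (G i)) ∧
      (∀ i, VirtualRetract (φ i).range) ∧ ¬ ResiduallyAmenable (Monoid.PushoutI φ) :=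
  Rank2.main
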